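import Pool.Agent.Helper92.Ru.GoalsR

set_option autoImplicit false

open MvPolynomial
open Pool.Agent.Helper92.Ru

namespace Pool.Agent.Helper59.Ru

variable {k : Type} [Field k] {m : ℕ}

/-- restriction of an exponent to the first `m` variables -/
noncomputable def hd (e : Fin (m + 1) →₀ ℕ) : Fin m →₀ ℕ :=
  Finsupp.equivFunOnFinite.symm (fun h => e (Fin.castSucc h))

/-- exponent in the last variable, as exponent in one variable -/
noncomputable def tl (e : Fin (m + 1) →₀ ℕ) : Fin 1 →₀ ℕ :=
  Finsupp.single 0 (e (Fin.last m))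

lemma cmb_hd_tl (e : Fin (m + 1) →₀ ℕ) : cmb (hd e) (tl e) = e := by
  ext i
  simp only [cmb, Finsupp.add_apply]
  refine Fin.lastCases ?_ (fun j => ?_) i
  · have h1 : (Finsupp.mapDomain Fin.castSucc (hd e)) (Fin.last m) = 0 := by
      apply Finsupp.mapDomain_of_notMem_range
      rintro ⟨j, hj⟩
      exact absurd hj (Fin.castSucc_lt_last j).ne
    rw [h1, tl, Finsupp.mapDomain_single]
    simp
  · have h1 : (Finsupp.mapDomain Fin.castSucc (hd e)) (Fin.castSucc j) = hd e j :=
      Finsupp.mapDomain_apply (Fin.castSucc_injective m) _ _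
    rw [h1, tl, Finsupp.mapDomain_single, Finsupp.single_eq_of_ne (Fin.castSucc_lt_last j).ne]
    simp [hd]

lemma UV_monomial (e : Fin (m + 1) →₀ ℕ) (c : k) :
    UV (monomial (hd e) c) (monomial (tl e) (1 : k)) = monomial e c := by
  unfold UV
  rw [rename_monomial, rename_monomial, monomial_mul, mul_one]
  have := cmb_hd_tl e
  unfold cmb at this
  rw [this]

/-- coefficient polynomials -/
noncomputable def P (p : MvPolynomial (Fin (m + 1)) k) (i : ℕ) : MvPolynomial (Fin m) k :=
  ∑ e ∈ p.support, if e (Fin.last m) = i then monomial (hd e) (coeff e p) else 0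

lemma P_degreeOf (p : MvPolynomial (Fin (m + 1)) k) (i : ℕ) (h : Fin m) :
    (P p i).degreeOf h ≤ p.degreeOf (Fin.castSucc h) := by
  unfold P
  refine (degreeOf_sum_le _ _ _).trans ?_
  refine Finset.sup_le fun e he => ?_
  split_ifs with hi
  · have hc : coeff e p ≠ 0 := by simpa [mem_support_iff] using he
    rw [degreeOf_monomial_eq _ _ hc]
    have := monomial_le_degreeOf (Fin.castSucc h) he
    simpa [hd] using this
  · simp

lemma sum_P (p : MvPolynomial (Fin (m + 1)) k) :
    p = ∑ i : Fin (p.degreeOf (Fin.last m) + 1),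
      UV (P p i) (monomial (Finsupp.single 0 (i : ℕ)) (1 : k)) := by
  have h1 : ∀ i : Fin (p.degreeOf (Fin.last m) + 1),
      UV (P p i) (monomial (Finsupp.single 0 (i : ℕ)) (1 : k))
        = ∑ e ∈ p.support, if e (Fin.last m) = (i : ℕ) then monomial e (coeff e p) else 0 := by
    intro i
    unfold UV P
    rw [map_sum, Finset.sum_mul]
    refine Finset.sum_congr rfl fun e he => ?_
    split_ifs with hi
    · have := UV_monomial e (coeff e p)
      unfold UV tl at this
      rw [← hi]
      exact this
    · simp
  simp_rw [h1]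
  rw [Finset.sum_comm]
  conv_lhs => rw [p.as_sum]
  refine Finset.sum_congr rfl fun e he => ?_
  have hle := monomial_le_degreeOf (Fin.last m) he
  rw [Finset.sum_eq_single (⟨e (Fin.last m), Nat.lt_succ_of_le hle⟩ :
    Fin (p.degreeOf (Fin.last m) + 1))]
  · simp
  · intro b _ hb
    rw [if_neg]
    intro hh
    apply hb
    ext
    exact hh.symm
  · intro h; exact absurd (Finset.mem_univ _) h

theorem decomp : Decomp := by
  intro k _ m p hp
  classical
  set r := p.degreeOf (Fin.last m) with hr
  obtain ⟨κ, a, ha, hspan, hind⟩ := exists_linearIndependent' k (fun i : Fin (r + 1) => P p i)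
  have : Finite κ := Finite.of_injective a ha
  letI : Fintype κ := Fintype.ofFinite κ
  have hcard : Fintype.card κ ≤ r + 1 := by
    simpa using Fintype.card_le_of_injective a ha
  let E : Fin (Fintype.card κ) ≃ κ := (Fintype.equivFin κ).symm
  -- coefficients
  have hmem : ∀ i : Fin (r + 1), ∃ c : κ → k, ∑ j, c j • P p (a j) = P p i := by
    intro i
    have : P p i ∈ Submodule.span k (Set.range ((fun i : Fin (r + 1) => P p i) ∘ a)) := by
      rw [hspan]
      exact Submodule.subset_span ⟨i, rfl⟩
    exact (Submodule.mem_span_range_iff_exists_fun k).1 this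
  choose c hc using hmem
  have hdelta : ∀ j l : κ, c (a j) l = if l = j then 1 else 0 := by
    intro j l
    have h0 : ∑ l, (c (a j) l - if l = j then 1 else 0) • P p (a l) = 0 := by
      simp_rw [sub_smul, Finset.sum_sub_distrib]
      rw [hc]
      simp
    have := Fintype.linearIndependent_iff.1 hind _ h0 l
    exact sub_eq_zero.1 this
  let f : κ → MvPolynomial (Fin m) k := fun j => P p (a j)
  let g : κ → MvPolynomial (Fin 1) k := fun j =>
    ∑ i : Fin (r + 1), monomial (Finsupp.single 0 (i : ℕ)) (c i j)
  have hcoefg : ∀ (j : κ) (i : Fin (r + 1)), coeff (Finsupp.single 0 (i : ℕ)) (g j) = c i j := by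
    intro j i
    simp only [g, coeff_sum, coeff_monomial]
    rw [Finset.sum_eq_single i]
    · simp
    · intro b _ hb
      rw [if_neg]
      intro hh
      apply hb
      have := Finsupp.single_injective (0 : Fin 1) hh
      exact Fin.ext this
    · intro h; exact absurd (Finset.mem_univ _) h
  have hf : LinearIndependent k f := hind
  have hg : LinearIndependent k g := by
    rw [Fintype.linearIndependent_iff]
    intro al hal j
    have h1 := congrArg (coeff (Finsupp.single 0 ((a j : Fin (r+1)) : ℕ))) hal
    rw [coeff_sum] at h1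
    simp only [coeff_smul, hcoefg, hdelta, coeff_zero, smul_eq_mul] at h1
    simpa using h1
  have hsum : p = ∑ j, UV (f j) (g j) := by
    conv_lhs => rw [sum_P p]
    have h1 : ∀ i : Fin (r + 1), UV (P p i) (monomial (Finsupp.single 0 (i : ℕ)) (1 : k))
        = ∑ j, UV (f j) (monomial (Finsupp.single 0 (i : ℕ)) (c i j)) := by
      intro i
      rw [← hc i]
      unfold UV
      rw [map_sum, Finset.sum_mul]
      refine Finset.sum_congr rfl fun j _ => ?_
      rw [map_smul, smul_mul_assoc, rename_monomial, rename_monomial, ← mul_smul_comm,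
        smul_monomial, smul_eq_mul, mul_one]
    rw [Finset.sum_congr rfl (fun i _ => h1 i), Finset.sum_comm]
    refine Finset.sum_congr rfl fun j _ => ?_
    unfold UV
    simp only [g]
    rw [map_sum, Finset.mul_sum]
  have hne : Nonempty κ := by
    by_contra hemp
    rw [not_nonempty_iff] at hemp
    apply hp
    rw [hsum]
    simp
  refine ⟨Fintype.card κ, f ∘ E, g ∘ E, Fintype.card_pos, hcard, ?_, ?_, ?_, ?_, ?_⟩
  · exact hf.comp _ E.injective
  · exact hg.comp _ E.injective
  · intro j h
    exact P_degreeOf p _ h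
  · intro j
    simp only [Function.comp, g]
    refine (degreeOf_sum_le _ _ _).trans ?_
    refine Finset.sup_le fun i _ => ?_
    by_cases h0 : c i (E j) = 0
    · simp [h0]
    · rw [degreeOf_monomial_eq _ _ h0]
      simpa using Nat.lt_succ_iff.1 i.2
  · conv_lhs => rw [hsum]
    exact (E.sum_comp (fun j => UV (f j) (g j))).symm

end Pool.Agent.Helper59.Ru
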